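import Pool.Agent.TH639.CK.Count

/-!
The order of vanishing of the `L`-function of an elliptic curve over a function field in the Kummer
extensions by the roots of the constant multiples of a function.
-/

set_option autoImplicit false
set_option linter.all false
set_option maxHeartbeats 4000000

open Polynomial FF Module NumberField Pool.Agent.W343.BSD Pool.Agent.W313.Gr Pool.Agent.TH639.CK

namespace Pool.Agent.Results.MP_48b749_nt.ConstantTwistsKummer

/-- The multiplicity of the zero one of the reduction of `P` modulo `ℓ`. -/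
noncomputable def multOne (ℓ : ℕ) (P : ℤ[X]) : ℕ :=
  (P.map (Int.castRingHom (ZMod ℓ))).rootMultiplicity 1

section defs

variable {k K : Type} [Field k] [Field K] [Algebra k K]

/-- The reduction at `v` is additive. -/
def IsAdditive (v : FF.Place k K) (a b : K) : Prop := condExp v a b = 2

/-- The number `M_m`: the multiplicity of the zero one of the reduction of `P` modulo `ℓ`, plus those of
the reductions of the Euler factors of `E` at the places at which the valuation of `f` is not divisible
by `ℓ ^ m`. -/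
noncomputable def bound (ℓ m : ℕ) (P : ℤ[X]) (f a b : K) : ℕ :=
  multOne ℓ P + ∑ᶠ (v : FF.Place k K) (_ : ¬ ((ℓ ^ m : ℕ) : ℤ) ∣ v.ord f),
    multOne ℓ (S.locFactor v a b)

/-- `L` is the extension of degree `N` of `K` generated by an `N`-th root of `g`, and it is the function
field of a curve over `k`. -/
structure IsKummer (N : ℕ) (g : K) (L : Type) [Field L] [Algebra k L] [Algebra K L] : Prop where
  curveField : IsCurveField k L
  degree : finrank K L = N
  root : ∃ y : L, y ^ N = algebraMap K L g ∧ IntermediateField.adjoin K {y} = ⊤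

/-- The Artin formalism: the `L`-function of `y ^ 2 = x ^ 3 + a x + b` over `L` is the product of the
`L`-functions over `K` of the twists by the characters of `χ ^ j` and `g`, for `j = 0` the `L`-function
over `K`. -/
def ArtinFormula {F : Type} [Field F] [NumberField F] (χ : MulChar k (𝓞 F)) (N : ℕ) (g a b : K)
    (L : Type) [Field L] [Algebra k L] [Algebra K L] : Prop :=
  PowerSeries.map (algebraMap ℤ (𝓞 F)) (S.Lfun k (algebraMap K L a) (algebraMap K L b)) =
    PowerSeries.map (algebraMap ℤ (𝓞 F)) (S.Lfun k a b) *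
      ∏ j ∈ Finset.Ico 1 N, twistL (χ ^ j) g a b

/-- The rank of `y ^ 2 = x ^ 3 + a x + b` over `K` is the order of the zero of its `L`-function at
`T = 1 / q`. -/
def RankIsOrder (k : Type) {K : Type} [Field k] [Field K] [Algebra k K] (a b : K) : Prop :=
  ∃ r : ℕ, HasOrder k a b r ∧ rank a b = r

/-- The rank of `y ^ 2 = x ^ 3 + a x + b` over `K` is at most the order of the zero of its `L`-function
at `T = 1 / q`. -/
def RankLeOrder (k : Type) {K : Type} [Field k] [Field K] [Algebra k K] (a b : K) : Prop :=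
  ∀ r : ℕ, HasOrder k a b r → rank a b ≤ r

end defs

section proof

variable {k K : Type} [Field k] [Finite k] [Field K] [Algebra k K] [FF.IsFF k K]

open Pool.Agent.TH639.SN (exists_poly)

/-- the order in one extension -/
theorem order_ext {ℓ n : ℕ} (hℓ : ℓ.Prime) {F : Type} [Field F] [NumberField F]
    {χ : MulChar k (𝓞 F)} {a b : K} (hE : 4 * a ^ 3 + 27 * b ^ 2 ≠ 0) {P : ℤ[X]}
    (hP : S.Lfun k a b = (P : PowerSeries ℤ)) {f : K} (hf : f ≠ 0) {Q : ℕ → Polynomial (𝓞 F)}
    (hQ : ∀ j ∈ Finset.Ico 1 (ℓ ^ n), twistL (χ ^ j) f a b = (Q j : PowerSeries (𝓞 F)))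
    {L : Type} [Field L] [Algebra k L] [Algebra K L] (u : kˣ)
    (hA : ArtinFormula χ (ℓ ^ n) (algebraMap k K u * f) a b L) {r : ℕ}
    (hr : HasOrder k a b r) :
    HasOrder k (algebraMap K L a) (algebraMap K L b)
      (r + ∑ j ∈ Finset.Ico 1 (ℓ ^ n), ((Q j).map (algebraMap (𝓞 F) F)).rootMultiplicity
          (algebraMap (𝓞 F) F ((χ ^ j) (u : k)) * (Nat.card k : F)⁻¹)) := by
  classical
  set φ := algebraMap (𝓞 F) F with hφd
  have hφ : Function.Injective φ := RingOfIntegers.coe_injective
  have hq0 : (Nat.card k : F) ≠ 0 := by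
    have : 0 < Nat.card k := Nat.card_pos
    exact_mod_cast this.ne'
  -- the polynomial over the ring of integers
  have hscale : ∀ j ∈ Finset.Ico 1 (ℓ ^ n), twistL (χ ^ j) (algebraMap k K u * f) a b =
      (((Q j).comp (C ((χ ^ j) (u : k)) * X) : Polynomial (𝓞 F)) : PowerSeries (𝓞 F)) := by
    intro j hj
    rw [twistL_const (χ ^ j) hf u.ne_zero, hQ j hj]
    ext i
    rw [PowerSeries.coeff_rescale, Polynomial.coeff_coe, Polynomial.coeff_coe,
      Polynomial.comp_C_mul_X_coeff, mul_comm]
  have hA' := hA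
  unfold ArtinFormula at hA'
  rw [hP, ← Polynomial.polynomial_map_coe, Finset.prod_congr rfl hscale] at hA'
  have hA2 : PowerSeries.map (algebraMap ℤ (𝓞 F))
      (S.Lfun k (algebraMap K L a) (algebraMap K L b)) =
      ((P.map (algebraMap ℤ (𝓞 F)) * ∏ j ∈ Finset.Ico 1 (ℓ ^ n),
        (Q j).comp (C ((χ ^ j) (u : k)) * X) : Polynomial (𝓞 F)) : PowerSeries (𝓞 F)) := by
    rw [hA', Polynomial.coe_mul, coe_prod']
  have hZ : Function.Injective (algebraMap ℤ (𝓞 F)) := RingHom.injective_int _
  obtain ⟨PL, hPL, hPLm⟩ := exists_poly hZ hA2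
  obtain ⟨P', hP', hr'⟩ := hr
  have hPP : P' = P := Polynomial.coe_injective ℤ (by rw [← hP', hP])
  subst hPP
  refine ⟨PL, hPL.symm, ?_⟩
  -- multiplicities over `F`
  have hm : ∀ G : ℤ[X], (G.map (Int.castRingHom ℚ)).rootMultiplicity ((Nat.card k : ℚ)⁻¹) =
      ((G.map (algebraMap ℤ (𝓞 F))).map φ).rootMultiplicity ((Nat.card k : F)⁻¹) := by
    intro G
    have h1 := Polynomial.eq_rootMultiplicity_map (p := G.map (Int.castRingHom ℚ))
      (algebraMap ℚ F).injective ((Nat.card k : ℚ)⁻¹)
    rw [h1, map_inv₀, map_natCast, Polynomial.map_map, Polynomial.map_map]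
    congr 2
    exact RingHom.ext_int _ _
  rw [hm, hPLm, Polynomial.map_mul, Polynomial.map_prod]
  have hP0 : ((P'.map (algebraMap ℤ (𝓞 F))).map φ) ≠ 0 := by
    rw [Polynomial.map_ne_zero_iff hφ, Polynomial.map_ne_zero_iff hZ]
    rintro rfl
    have hu := unit_coeff (k := k) hE
    rw [hP', Polynomial.coe_zero, map_zero] at hu
    exact not_isUnit_zero hu
  have hc0 : ∀ j : ℕ, φ ((χ ^ j) (u : k)) ≠ 0 := by
    intro j
    have h1 : (χ ^ j) (u : k) * (χ ^ j) ((u⁻¹ : kˣ) : k) = 1 := by
      rw [← map_mul, ← Units.val_mul, mul_inv_cancel, Units.val_one, map_one]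
    exact (map_ne_zero_iff φ hφ).2 (left_ne_zero_of_mul_eq_one h1)
  have hcomp : ∀ j, ((Q j).comp (C ((χ ^ j) (u : k)) * X)).map φ =
      ((Q j).map φ).comp (C (φ ((χ ^ j) (u : k))) * X + C 0) := by
    intro j
    rw [Polynomial.map_comp, Polynomial.map_mul, Polynomial.map_C, Polynomial.map_X, C_0, add_zero]
  have hQ0 : ∀ j ∈ Finset.Ico 1 (ℓ ^ n), (((Q j).comp (C ((χ ^ j) (u : k)) * X)).map φ) ≠ 0 := by
    intro j hj h
    rw [Polynomial.map_eq_zero_iff hφ] at h
    apply twistL_ne (χ ^ j) (algebraMap k K u * f) a b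
    rw [hscale j hj, h, Polynomial.coe_zero]
  rw [rm_mul _ hP0 (Finset.prod_ne_zero_iff.2 hQ0), rm_prod _ _ _ hQ0, ← hm, hr']
  congr 1
  refine Finset.sum_congr rfl fun j _ => ?_
  rw [hcomp, rootMultiplicity_comp_C_mul_X_add_C _ _ _ _ (hc0 j).isUnit, add_zero]

theorem finsum_eq {ℓ m : ℕ} {P : ℤ[X]} {f a b : K} (hf : f ≠ 0) (B : Finset (FF.Place k K))
    (hB : ∀ v, v ∈ B ↔ ¬ ((ℓ ^ m : ℕ) : ℤ) ∣ v.ord f) : bound (k := k) ℓ m P f a b =
      Pool.Agent.TH639.SG.muL ℓ P +
        ∑ v ∈ B, Pool.Agent.TH639.SG.muL ℓ (S.locFactor v a b) := by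
  classical
  unfold bound
  congr 1
  have h1 : ∀ v : FF.Place k K, (∑ᶠ (_ : ¬ ((ℓ ^ m : ℕ) : ℤ) ∣ v.ord f),
      multOne ℓ (S.locFactor v a b)) = ∑ᶠ (_ : v ∈ B), multOne ℓ (S.locFactor v a b) := by
    intro v
    rw [finsum_eq_if, finsum_eq_if]
    simp only [hB v]
  rw [finsum_congr h1, finsum_mem_finset_eq_sum]
  rfl

end proof

/-- Let `K` be the function field of a curve over the field `k` with `q` elements, of characteristic at
least `5`, and `E : y ^ 2 = x ^ 3 + a x + b` an elliptic curve over `K` with `L(T, E/K) = P(T)`. Let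
`N = ℓ ^ n`, `n ≥ 1`, be a power of a prime which divides `q - 1`, `χ` a character of `k` of order `N`
with values in the ring of integers of the field of the `N`-th roots of unity, and let `f` in `K` be
such that the twists of `L(T, E/K)` by the characters of `χ ^ j` and `f`, `0 < j < N`, are polynomials
(this holds if `j_E` is not constant, Grothendieck). If `ℓ` is `2` or `3` we assume that the reduction
of `E` is not additive at the places at which the valuation of `f` is not divisible by `N` (otherwise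
the twisted `L`-functions would have more Euler factors).

For `u` in the unit group of `k` let `L` be the extension of `K` generated by an `N`-th root of `u f`,
of degree `N` and with the field of constants `k`, for which we use the Artin formalism for the
`L`-function of `E`. Then, for all `u` outside a set `T` with
`N |T| ≤ (q - 1) ∑ ℓ ^ (n - m) M_m`, the sum over `1 ≤ m ≤ n`, the `L`-functions of `E` over `L` and
over `K` have the same order of vanishing at `1 / q`, and if the rank of `E(K)` is the order of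
`L(T, E/K)`, then the rank of `E(L)` is the order of `L(T, E/L)`, and both are equal to the rank of
`E(K)`.

The field `L` depends only on the class of `u` modulo `N`-th powers, so at most `∑ ℓ ^ (n - m) M_m` of the
`N` classes are exceptional. If `M_m ≤ M` for all `m`, this is less than `N M / (ℓ - 1)`. For a
rational elliptic surface `E` over `K = k(t)`, for example, `rank E(K)` (at most `8`) is the order of
`L(T, E/K)`, which has degree at most `8`, and `M_m ≤ 8` if `ℓ` does not divide the number of points of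
the reduction of `E` at the zeros and poles of `f`; the degree of `f` is arbitrary. -/
theorem result (k K : Type) [Field k] [Finite k] [Field K] [Algebra k K] (h6 : (6 : k) ≠ 0)
    (hK : IsCurveField k K) (ℓ n : ℕ) (hℓ : ℓ.Prime) (hn : n ≠ 0) (F : Type) [Field F]
    [NumberField F] [IsCyclotomicExtension {ℓ ^ n} ℚ F] (χ : MulChar k (𝓞 F))
    (hχ : orderOf χ = ℓ ^ n) (a b : K) (hE : 4 * a ^ 3 + 27 * b ^ 2 ≠ 0) (P : ℤ[X])
    (hP : S.Lfun k a b = (P : PowerSeries ℤ)) (f : K) (hf : f ≠ 0)
    (hadd : ℓ ∣ 6 → ∀ v : FF.Place k K, IsAdditive v a b → ((ℓ ^ n : ℕ) : ℤ) ∣ v.ord f)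
    (hpoly : ∀ j ∈ Finset.Ico 1 (ℓ ^ n), ∃ Q : (𝓞 F)[X],
      twistL (χ ^ j) f a b = (Q : PowerSeries (𝓞 F))) :
    ∃ T : Finset kˣ, ℓ ^ n * T.card ≤ (Nat.card k - 1) *
        ∑ m ∈ Finset.Icc 1 n, ℓ ^ (n - m) * bound (k := k) ℓ m P f a b ∧
      ∀ u ∉ T, ∀ (L : Type) [Field L] [Algebra k L] [Algebra K L] [IsScalarTower k K L],
        IsKummer (k := k) (ℓ ^ n) (algebraMap k K u * f) L →
        ArtinFormula χ (ℓ ^ n) (algebraMap k K u * f) a b L →
        (∀ r : ℕ, HasOrder k a b r → HasOrder k (algebraMap K L a) (algebraMap K L b) r) ∧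
        (RankIsOrder k a b → RankLeOrder k (algebraMap K L a) (algebraMap K L b) →
          RankIsOrder k (algebraMap K L a) (algebraMap K L b) ∧
            rank (algebraMap K L a) (algebraMap K L b) = rank a b) := by
  classical
  have hFF : FF.IsFF k K := ⟨hK.essFiniteType, hK.trdeg_eq_one⟩
  have := Fintype.ofFinite kˣ
  have hfin : ∀ m : ℕ, {v : FF.Place k K | ¬ ((ℓ ^ m : ℕ) : ℤ) ∣ v.ord f}.Finite := by
    intro m
    refine (Pool.Agent.H525R3.FFp.finite_support (k := k) f).subset ?_
    intro v hv h0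
    apply hv
    rw [h0]
    exact dvd_zero _
  set B : ℕ → Finset (FF.Place k K) := fun m => (hfin m).toFinset with hBd
  have hB : ∀ m, ∀ v, v ∈ B m ↔ ¬ ((ℓ ^ m : ℕ) : ℤ) ∣ v.ord f := fun m v => by
    rw [hBd, Set.Finite.mem_toFinset]
    rfl
  have hbd : ∀ m, bound (k := k) ℓ m P f a b = Pool.Agent.TH639.SG.muL ℓ P +
        ∑ v ∈ B m, Pool.Agent.TH639.SG.muL ℓ (S.locFactor v a b) :=
    fun m => finsum_eq hf (B m) (hB m)
  choose! Q hQ using hpoly
  obtain ⟨T, hT, hTu⟩ := main_count hℓ hn F hχ hE hP hf B hB hQ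
  refine ⟨T, ?_, ?_⟩
  · simp only [hbd]
    exact hT
  · intro u hu L _ _ _ _ _ hA
    have hord : ∀ r : ℕ, HasOrder k a b r →
        HasOrder k (algebraMap K L a) (algebraMap K L b) r := by
      intro r hr
      have h1 := order_ext hℓ hE hP hf hQ u hA hr
      rwa [Finset.sum_eq_zero (fun j hj =>
        Polynomial.rootMultiplicity_eq_zero (hTu u hu j hj)), add_zero] at h1
    refine ⟨hord, ?_⟩
    rintro ⟨r, hr, hrank⟩ hle
    have h2 : rank (algebraMap K L a) (algebraMap K L b) = r :=
      le_antisymm (hle r (hord r hr)) (hrank ▸ rank_mono a b)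
    exact ⟨⟨r, hord r hr, h2⟩, by rw [h2, hrank]⟩

end Pool.Agent.Results.MP_48b749_nt.ConstantTwistsKummer
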