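import Pool.Agent.TH943.KD.Kd

/-!
The order of vanishing of the `L`-function of an elliptic curve over a function field in the Galois
extensions of prime power degree.
-/

set_option autoImplicit false
set_option linter.all false
set_option maxHeartbeats 4000000

open Polynomial FF Module Pool.Agent.W343.BSD Pool.Agent.W313.Gr

namespace Pool.Agent.Results.MP_48b749_nt.ProEllExtensions

/-- The multiplicity of `1 / q` as a root of the reduction of `P` modulo the prime `l`, where `q` is
the number of elements of `k`. -/
noncomputable def centralMult (l : ℕ) (k : Type) (P : ℤ[X]) : ℕ :=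
  (P.map (Int.castRingHom (ZMod l))).rootMultiplicity ((Nat.card k : ℕ) : ZMod l)⁻¹

/-- The integer `q ^ n P(1 / q)`, where `n` is the degree of `P`. -/
noncomputable def centralValue (k : Type) (P : ℤ[X]) : ℤ := P.reverse.eval (Nat.card k : ℤ)

section defs

variable {k K : Type} [Field k] [Field K] [Algebra k K]

open Classical in
/-- The number of nonsingular points over the residue field of the reduction at `v` of
`y ^ 2 = x ^ 3 + a x + b`: `q_v + 1 - a_v` for good and `q_v - a_v` for bad reduction. -/
noncomputable def pointCount (v : FF.Place k K) (a b : K) : ℤ :=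
  (Nat.card (S.Res v) : ℤ) - S.trace v a b + if v.ord (minDisc v a b) = 0 then 1 else 0

/-- The reduction at `v` is additive. -/
def IsAdditive (v : FF.Place k K) (a b : K) : Prop := condExp v a b = 2

/-- The ramification index in the Galois extension `K'` of `K` of the place `v` of `K`. -/
noncomputable def ramIndex (K' : Type) [Field K'] [Algebra k K'] [Algebra K K']
    (v : FF.Place k K) : ℕ :=
  sSup {e : ℕ | ∃ w : FF.Place k K', 0 < e ∧ ∀ x : K, w.ord (algebraMap K K' x) = e * v.ord x}

/-- The contribution of the places in `B`: the sum of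
`([K' : K] - [K' : K] / e_v) mult_v`, where `e_v` is the ramification index of `v` and `mult_v` the
multiplicity of `1 / q` as a root of the Euler factor of `E` at `v` modulo `l`. -/
noncomputable def ramSum (l : ℕ) (K' : Type) [Field K'] [Algebra k K'] [Algebra K K'] (a b : K)
    (B : Finset (FF.Place k K)) : ℕ :=
  ∑ v ∈ B, (finrank K K' - finrank K K' / ramIndex K' v) *
    centralMult l k (S.locFactor v a b)

end defs

section proof

variable {k K k' K' : Type} [Field k] [Finite k] [Field K] [Algebra k K] [FF.IsFF k K]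
  [Field k'] [Finite k'] [Field K'] [Algebra k' K'] [Algebra k k'] [Algebra k K'] [Algebra K K']
  [IsScalarTower k K K'] [IsScalarTower k k' K'] [FF.IsFF k K'] [FF.IsFF k' K']
  [FiniteDimensional K K'] [IsGalois K K']

theorem ramIndex_eq (v : FF.Place k K) (w : FF.Place k K') (n : ℕ) (h : Over w v n) :
    n = ramIndex K' v := by
  have h1 : {e : ℕ | ∃ w : FF.Place k K', 0 < e ∧
      ∀ x : K, w.ord (algebraMap K K' x) = e * v.ord x} = {n} := by
    ext e
    simp only [Set.mem_setOf_eq, Set.mem_singleton_iff]
    constructor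
    · rintro ⟨w', h'⟩
      have h2 : Over w' v e := h'
      obtain ⟨σ, rfl⟩ := exists_cj h h2
      exact over_e_unique h2 (over_cj h σ)
    · rintro rfl
      exact ⟨w, h⟩
  unfold ramIndex
  rw [h1, csSup_singleton]

theorem not_additive {v : FF.Place k K} {a b : K} (hE : 4 * a ^ 3 + 27 * b ^ 2 ≠ 0)
    (h : ¬ IsAdditive v a b) : v.red (minA v a b) ≠ 0 ∨ v.red (minDisc v a b) ≠ 0 := by
  by_contra h2
  push Not at h2
  exact h (condExp_add hE h2.2 h2.1)

theorem mult_loc (l : ℕ) (v : FF.Place k K) {a b : K} (hE : 4 * a ^ 3 + 27 * b ^ 2 ≠ 0) :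
    centralMult l k (S.locFactor v a b) =
      (locML l v a b).rootMultiplicity ((Nat.card k : ℕ) : ZMod l)⁻¹ := by
  unfold centralMult
  rw [S.locFactor_eq v hE]
  rfl

theorem lfun_conv (a b : K) (hE : 4 * a ^ 3 + 27 * b ^ 2 ≠ 0) : S.Lfun k a b = Lfun k a b :=
  S.lfun_eq hE

end proof

/-- Let `K` and `K'`, a Galois extension of `K` of degree a power of the prime `l`, be function
fields of curves over the finite fields `k` and `k'` of characteristic at least `5` and other than
`l`, with `q` and `q'` elements, and `E : y ^ 2 = x ^ 3 + a x + b` an elliptic curve over `K` with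
`L(T, E/K) = P(T)`. Let `B` be a finite set of places of `K` outside which `K'` is unramified.
If no additive place in `B` ramifies, and `L(T, E/K') = Q(T)`, then
`[k' : k] centralMult Q = [K' : K] centralMult P + ramSum`. In general, if `L(T, E/K')` is a
polynomial with a zero of order `r` at `1 / q'`, then
`[k' : k] r ≤ [K' : K] centralMult P + ramSum`. If `l` divides neither `q ^ deg P * P(1 / q)` nor the
number of nonsingular points of the reduction of `E` at any place which ramifies in `K'`, then
`r = 0`, and if also the rank of `E(K')` is at most `r`, it is `r`. -/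
theorem result (k K k' K' : Type) [Field k] [Finite k] [Field K] [Algebra k K] [Field k']
    [Finite k'] [Field K'] [Algebra k' K'] [Algebra k k'] [Algebra k K'] [Algebra K K']
    [IsScalarTower k K K'] [IsScalarTower k k' K'] [FiniteDimensional K K'] [IsGalois K K']
    (h6 : (6 : k) ≠ 0) (hK : IsCurveField k K) (hK' : IsCurveField k' K') (l s : ℕ)
    (hl : l.Prime) (hlk : (l : k) ≠ 0) (hdeg : finrank K K' = l ^ s) (a b : K)
    (hE : 4 * a ^ 3 + 27 * b ^ 2 ≠ 0) (P : ℤ[X]) (hP : S.Lfun k a b = (P : PowerSeries ℤ))
    (B : Finset (FF.Place k K)) (hB : ∀ v, v ∉ B → ramIndex K' v = 1) :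
    (∀ Q : ℤ[X], S.Lfun k' (algebraMap K K' a) (algebraMap K K' b) = (Q : PowerSeries ℤ) →
      (∀ v ∈ B, IsAdditive v a b → ramIndex K' v = 1) →
      finrank k k' * centralMult l k' Q =
        finrank K K' * centralMult l k P + ramSum l K' a b B) ∧
    (∀ r : ℕ, HasOrder k' (algebraMap K K' a) (algebraMap K K' b) r →
      finrank k k' * r ≤ finrank K K' * centralMult l k P + ramSum l K' a b B) ∧
    (¬ (l : ℤ) ∣ centralValue k P →
      (∀ v ∈ B, ramIndex K' v ≠ 1 → ¬ (l : ℤ) ∣ pointCount v a b) →
      ∀ r : ℕ, HasOrder k' (algebraMap K K' a) (algebraMap K K' b) r →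
        r = 0 ∧ (rank (algebraMap K K' a) (algebraMap K K' b) ≤ r →
          rank (algebraMap K K' a) (algebraMap K K' b) = r)) := by
  classical
  have hFF : FF.IsFF k K := ⟨hK.essFiniteType, hK.trdeg_eq_one⟩
  have hFF' : FF.IsFF k' K' := ⟨hK'.essFiniteType, hK'.trdeg_eq_one⟩
  have hFF'' : FF.IsFF k K' := isFF_of_finite (K := K)
  have := Fact.mk hl
  have hE' : 4 * algebraMap K K' a ^ 3 + 27 * algebraMap K K' b ^ 2 ≠ 0 := by
    rw [disc_map]
    exact (_root_.map_ne_zero _).2 hE
  have hP' : Lfun k a b = (P : PowerSeries ℤ) := by rw [← hP, S.lfun_eq hE]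
  have he : ∀ (v : FF.Place k K) (w : FF.Place k K') (n : ℕ), Over w v n → n = ramIndex K' v :=
    fun v w n h => ramIndex_eq v w n h
  have hsum : ramSum l K' a b B = ∑ v ∈ B, (finrank K K' - finrank K K' / ramIndex K' v) *
      (locML l v a b).rootMultiplicity ((Nat.card k : ℕ) : ZMod l)⁻¹ := by
    unfold ramSum
    exact Finset.sum_congr rfl fun v _ => by rw [mult_loc l v hE]
  have hbound : ∀ r : ℕ, HasOrder k' (algebraMap K K' a) (algebraMap K K' b) r →
      finrank k k' * r ≤ finrank K K' * centralMult l k P + ramSum l K' a b B := by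
    rintro r ⟨Q, hQ, hQr⟩
    obtain ⟨G, hG⟩ := TH943.KD.dvd_of_mult (Nat.card_pos (α := k')).ne' hQr
    rw [hsum]
    refine kida_final (k' := k') (L := K') h6 hK.algClosed hlk hdeg hE he B hB hP' r G ?_
    rw [← S.lfun_eq hE', hQ, hG]
  refine ⟨?_, hbound, ?_⟩
  · intro Q hQ hadd
    rw [hsum]
    refine TH943.KD.kida_eq_const (k' := k') (L := K') hK.algClosed hdeg hE he B hB ?_ hP' Q ?_
    · intro v hv
      by_cases h : IsAdditive v a b
      · exact Or.inl (hadd v hv h)
      · exact Or.inr (not_additive hE h)
    · rw [← S.lfun_eq hE', hQ]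
  · intro hval hloc r hr
    have hq : (((Nat.card k : ℤ)) : ZMod l) ≠ 0 := by
      have := card_ne_zero_mod (k := k) hlk
      exact_mod_cast this
    have h1 : centralMult l k P = 0 := by
      unfold centralMult
      have h2 := TH943.KD.eval_rev hq hval
      apply TH943.KD.rm_zero_of_eval
      exact_mod_cast h2
    have h2 : ramSum l K' a b B = 0 := by
      rw [hsum]
      apply Finset.sum_eq_zero
      intro v hv
      by_cases h : ramIndex K' v = 1
      · rw [h, Nat.div_one, Nat.sub_self, zero_mul]
      · rw [TH943.KD.rm_zero_of_eval (TH943.KD.eval_locML hlk hE v (hloc v hv h)), mul_zero]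
    have h3 := hbound r hr
    rw [h1, h2, mul_zero, zero_add, Nat.le_zero, mul_eq_zero] at h3
    have : FiniteDimensional k k' := Module.Finite.of_finite
    have h4 : r = 0 := h3.resolve_left finrank_pos.ne'
    refine ⟨h4, fun h => le_antisymm h ?_⟩
    rw [h4]
    simp

end Pool.Agent.Results.MP_48b749_nt.ProEllExtensions
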