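import Pool.Agent.TH639.B3.FamTw
import Pool.Agent.TH639.B3.Sq
import Pool.Agent.TH639.B3.Tors

/-!
The order of vanishing of the `L`-functions of the quadratic twists of elliptic curves with a
rational point of order three over global function fields.
-/

set_option autoImplicit false
set_option linter.all false
set_option maxHeartbeats 4000000

open Polynomial Pool.Agent.W343.BSD Pool.Agent.W313.Gr

namespace Pool.Agent.Results.MP_48b749_nt.ThreeIsogenyTwists

section defs

open Classical in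
/-- `E : y ^ 2 = x ^ 3 + a x + b` has a `K`-rational point of order three. -/
def HasThreeTorsion {K : Type} [Field K] (a b : K) : Prop :=
  ∃ P : (curve a b).toAffine.Point, addOrderOf P = 3

/-- `L` is the field `K(√u)`, and `u` is not a square in `K`. -/
def IsQuadratic {K : Type} (L : Type) [Field K] [Field L] [Algebra K L] (u : K) : Prop :=
  (∀ s : K, u ≠ s ^ 2) ∧
    ∃ θ : L, θ ^ 2 = algebraMap K L u ∧ IntermediateField.adjoin K {θ} = ⊤

/-- `u ≠ 0` is a square in the completion at `v` (of characteristic different from two): it is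
`s ^ 2 (1 + m)` with `s` in `K` and `ord_v m > 0`. -/
def IsLocalSquare {k K : Type} [Field k] [Field K] [Algebra k K] (v : FF.Place k K) (u : K) : Prop :=
  ∃ s : K, u = s ^ 2 ∨ v.ord u < v.ord (u - s ^ 2)

open Classical in
/-- The contribution of a place `v` with `q_v` elements in the residue field to the bound for the
twist `E^u : y ^ 2 = x ^ 3 + u ^ 2 a x + u ^ 3 b`: `0` if the reduction of `E^u` at `v` is good or
nonsplit multiplicative, `1` if it is split multiplicative, and for additive reduction `0` if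
`ord_v u` is odd; if it is even `1` if `q_v` is not `1` modulo `3`, and otherwise `2` or `0` as `u` is
a square in the completion at `v` or not. -/
noncomputable def contribution {k K : Type} [Field k] [Field K] [Algebra k K] (v : FF.Place k K)
    (a b u : K) : ℕ :=
  if v.ord (minDisc v (u ^ 2 * a) (u ^ 3 * b)) = 0 ∨ S.trace v (u ^ 2 * a) (u ^ 3 * b) = -1 then 0
  else if S.trace v (u ^ 2 * a) (u ^ 3 * b) = 1 then 1
  else if Odd (v.ord u) then 0
  else if ¬ (3 : ℤ) ∣ (Nat.card (S.Res v) : ℤ) - 1 then 1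
  else if IsLocalSquare v u then 2 else 0

/-- The sum over all places of the contribution times the largest power of `3` dividing the degree of
the place. -/
noncomputable def contributionSum (k : Type) {K : Type} [Field k] [Field K] [Algebra k K]
    (a b u : K) : ℕ := ∑ᶠ v : FF.Place k K, contribution v a b u * 3 ^ padicValNat 3 (S.deg v)

/-- `L(T) = L(T, E)` is an integral polynomial `P(T)`, of degree `N` say, and satisfies the functional
equation `T ^ N L(T ^ (-1) / q) = ε L(T / q)`. -/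
def HasSign (k : Type) {K : Type} [Field k] [Field K] [Algebra k K] (a b : K) (ε : ℤ) : Prop :=
  ∃ P : ℤ[X], S.Lfun k a b = (P : PowerSeries ℤ) ∧ ∀ x : ℚ, x ≠ 0 →
    x ^ P.natDegree * (P.map (Int.castRingHom ℚ)).eval (x * (Nat.card k : ℚ))⁻¹ =
      ε * (P.map (Int.castRingHom ℚ)).eval (x / (Nat.card k : ℚ))

/-- The order of vanishing of `L(T, E)` at `T = 1 / q` (if `L(T, E)` is a polynomial) is zero, and so
is the rank of the group of rational points, if it is at most the order. -/
def OrderZero (k : Type) {K : Type} [Field k] [Field K] [Algebra k K] (a b : K) : Prop :=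
  ∀ r : ℕ, HasOrder k a b r → r = 0 ∧ (rank a b ≤ r → rank a b = r)

/-- The order of vanishing `r` is at most one; if the functional equation holds with the sign `1`
then `r` is zero, and so is the rank if it is at most `r`; if it holds with the sign `-1` then `r` is
one. -/
def OrderBySign (k : Type) {K : Type} [Field k] [Field K] [Algebra k K] (a b : K) : Prop :=
  ∀ r : ℕ, HasOrder k a b r → r ≤ 1 ∧
    (HasSign k a b 1 → r = 0 ∧ (rank a b ≤ r → rank a b = r)) ∧
    (HasSign k a b (-1) → r = 1)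

/-- The order of vanishing is at most `N - c`; it is zero if `N ≤ c` and given by the sign if
`N ≤ c + 1`. -/
def OrderBound (k : Type) {K : Type} [Field k] [Field K] [Algebra k K] (a b : K) (c N : ℕ) : Prop :=
  (∀ m : ℕ, S.VanishesTo k a b m → m + c ≤ N) ∧
    (N ≤ c → OrderZero k a b) ∧ (N ≤ c + 1 → OrderBySign k a b)

variable {k : Type} [Field k]

/-- The coefficient `a` of the short form `y ^ 2 = x ^ 3 + a x + b` of `y ^ 2 = x ^ 3 + (α x + β) ^ 2`
(replace `x` by `x - α ^ 2 / 3`). -/
noncomputable def coeffA (α β : k[X]) : RatFunc k :=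
  2 * algebraMap k[X] (RatFunc k) α * algebraMap k[X] (RatFunc k) β -
    algebraMap k[X] (RatFunc k) α ^ 4 / 3

/-- The coefficient `b` of the same short form. -/
noncomputable def coeffB (α β : k[X]) : RatFunc k :=
  algebraMap k[X] (RatFunc k) β ^ 2 -
    2 * algebraMap k[X] (RatFunc k) α ^ 3 * algebraMap k[X] (RatFunc k) β / 3 +
    2 * algebraMap k[X] (RatFunc k) α ^ 6 / 27

open Classical in
/-- The monic irreducible factors of a polynomial. -/
noncomputable def primes (g : k[X]) : Finset k[X] :=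
  (UniqueFactorizationMonoid.normalizedFactors g).toFinset

open Classical in
/-- The quadratic symbol `(u / P)` for a prime `P` which does not divide `u`. -/
noncomputable def symbol (u P : k[X]) : ℤ := if ∃ s : k[X], P ∣ u - s ^ 2 then 1 else -1

open Classical in
/-- The bound for the contributions for `u y ^ 2 = x ^ 3 + (α x + β) ^ 2`: the sum of
`3 ^ v₃(deg P)` over the monic irreducible factors `P` of `β` not dividing `u` with `(u / P) = 1` and
over those of `4 α ^ 3 - 27 β` not dividing `u` with `(u / P)` congruent to `q ^ deg P`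
modulo `3`. -/
noncomputable def familySum (u α β : k[X]) : ℕ :=
  ∑ P ∈ (primes β).filter (fun P => ¬ P ∣ u ∧ ∃ s : k[X], P ∣ u - s ^ 2),
    3 ^ padicValNat 3 P.natDegree +
  ∑ P ∈ (primes (4 * α ^ 3 - 27 * β)).filter
    (fun P => ¬ P ∣ u ∧ (3 : ℤ) ∣ (Nat.card k : ℤ) ^ P.natDegree - symbol u P),
    3 ^ padicValNat 3 P.natDegree

/-- `u` is not a square modulo any irreducible factor of `g` which does not divide `u`. -/
def NonSquareModFactors (u g : k[X]) : Prop :=
  ∀ P : k[X], Irreducible P → P ∣ g → ¬ P ∣ u → ∀ s : k[X], ¬ P ∣ u - s ^ 2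

/-- The coefficient `u ^ 2 a` of the twist. -/
noncomputable def twistA (u α β : k[X]) : RatFunc k :=
  algebraMap k[X] (RatFunc k) u ^ 2 * coeffA α β

/-- The coefficient `u ^ 3 b` of the twist. -/
noncomputable def twistB (u α β : k[X]) : RatFunc k :=
  algebraMap k[X] (RatFunc k) u ^ 3 * coeffB α β

/-- The bound for the twists by `u` over `k(t)`; if `q` is `1` modulo `3`, the class number of
`L = k(t)(√u)` is prime to `3` and `u` is not a square modulo the irreducible factors of
`β (4 α ^ 3 - 27 β)` not dividing `u`, the order is zero. -/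
def TwistFamily (k L : Type) [Field k] [Field L] [Algebra k L] (u α β : k[X]) : Prop :=
  ∃ Q : ℤ[X], IsNumerator k L Q ∧
    OrderBound k (twistA u α β) (twistB u α β) 0 (rootSum 3 k Q + familySum u α β) ∧
    (3 ∣ Nat.card k - 1 → ¬ 3 ∣ S.classNumber k L →
      NonSquareModFactors u (β * (4 * α ^ 3 - 27 * β)) →
      OrderZero k (twistA u α β) (twistB u α β))

/-- The bound for the twists by `t`. -/
def TwistByT (α β : k[X]) : Prop :=
  OrderBound k (twistA X α β) (twistB X α β) 0 (familySum X α β) ∧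
    (3 ∣ Nat.card k - 1 → NonSquareModFactors X (β * (4 * α ^ 3 - 27 * β)) →
      OrderZero k (twistA X α β) (twistB X α β))

end defs

section proof

theorem contributionSum_eq {k K : Type} [Field k] [Field K] [Algebra k K] (a b u : K) :
    contributionSum k a b u = TH639.B3.twSum k a b u := rfl

theorem familySum_eq {k : Type} [Field k] (u α β : k[X]) :
    familySum u α β = TH639.B3.twFin u α β := rfl

theorem vanishes_of {k K : Type} [Field k] [Finite k] [Field K] [Algebra k K] {a b : K} {r : ℕ}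
    (h : HasOrder k a b r) : S.VanishesTo k a b r := by
  obtain ⟨P, hP, hPr⟩ := h
  obtain ⟨G, hG⟩ := TH943.KD.dvd_of_mult (Nat.card_pos (α := k)).ne' hPr
  exact ⟨G, by rw [hP, hG]⟩

theorem sign_eq {k K : Type} [Field k] [Finite k] [Field K] [Algebra k K] [FF.IsFF k K] {a b : K}
    (hE : 4 * a ^ 3 + 27 * b ^ 2 ≠ 0) {r : ℕ} (hr : HasOrder k a b r) {ε : ℤ}
    (h : HasSign k a b ε) : (ε : ℚ) = (-1) ^ r := by
  obtain ⟨P, hP, hfe⟩ := h
  obtain ⟨Q, hQ, hQr⟩ := hr
  have h5 : P = Q := Polynomial.coe_injective _ (hP.symm.trans hQ)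
  rw [← h5] at hQr
  have hdeg : (P.map (Int.castRingHom ℚ)).natDegree = P.natDegree :=
    Polynomial.natDegree_map_eq_of_injective Int.cast_injective P
  have hq : (Nat.card k : ℚ) ≠ 0 := by exact_mod_cast (Nat.card_pos (α := k)).ne'
  have hP0 : P.map (Int.castRingHom ℚ) ≠ 0 := by
    rw [Ne, Polynomial.map_eq_zero_iff Int.cast_injective]
    rintro rfl
    have hu := unit_coeff (k := k) hE
    rw [hP] at hu
    simp at hu
  have h6' := TH943.LG.parity hq hP0 (ε := (ε : ℚ)) (by
    intro x hx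
    rw [hdeg]
    exact hfe x hx)
  rw [hQr] at h6'
  exact h6'

theorem zero_of {K : Type} [Field K] {a b : K} {r : ℕ} (h : r = 0) :
    r = 0 ∧ (rank a b ≤ r → rank a b = r) := by
  refine ⟨h, fun hle => le_antisymm hle ?_⟩
  rw [h]
  simp

theorem zero_of_bound {k K : Type} [Field k] [Finite k] [Field K] [Algebra k K] {a b : K} {c N : ℕ}
    (hbd : ∀ m : ℕ, S.VanishesTo k a b m → m + c ≤ N) (h : N ≤ c) : OrderZero k a b := by
  intro r hr
  have h1 := hbd r (vanishes_of hr)
  exact zero_of (by omega)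

theorem sign_of_bound {k K : Type} [Field k] [Finite k] [Field K] [Algebra k K] [FF.IsFF k K]
    {a b : K} (hE : 4 * a ^ 3 + 27 * b ^ 2 ≠ 0) {c N : ℕ}
    (hbd : ∀ m : ℕ, S.VanishesTo k a b m → m + c ≤ N) (h : N ≤ c + 1) : OrderBySign k a b := by
  intro r hr
  have h1 := hbd r (vanishes_of hr)
  refine ⟨by omega, fun hs => ?_, fun hs => ?_⟩
  · have h2 := sign_eq hE hr hs
    apply zero_of
    rcases Nat.eq_zero_or_pos r with h0 | h0
    · exact h0
    · exfalso
      have : r = 1 := by omega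
      rw [this] at h2
      norm_num at h2
  · have h2 := sign_eq hE hr hs
    rcases Nat.eq_zero_or_pos r with h0 | h0
    · exfalso
      rw [h0] at h2
      norm_num at h2
    · omega

theorem hasThree_of {K : Type} [Field K] (h2 : (2 : K) ≠ 0) (h3 : (3 : K) ≠ 0) {a b α β : K}
    (hβ : β ≠ 0) (h : TH639.B3.IsT3 a b α β) : HasThreeTorsion a b := by
  classical
  exact TH639.B3.order_of_isT3 h2 h3 hβ h

theorem two_ne' {k : Type} [Field k] [Finite k] (h6 : (6 : k) ≠ 0) : (2 : k) ≠ 0 := by
  have := two_ne h6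
  exact_mod_cast this

theorem two_K {k K : Type} [Field k] [Finite k] [Field K] [Algebra k K] (h6 : (6 : k) ≠ 0) :
    (2 : K) ≠ 0 := by
  have h := two_ne' h6
  have : (2 : K) = algebraMap k K 2 := by rw [map_ofNat]
  rw [this]
  exact (_root_.map_ne_zero _).2 h

/-- the bound for two given numerators -/
theorem bound_of {k K L : Type} [Field k] [Finite k] [Field K] [Algebra k K] [FF.IsFF k K]
    [Field L] [Algebra k L] [Algebra K L] [IsScalarTower k K L] [FF.IsFF k L]
    (h6 : (6 : k) ≠ 0) (hc : constDeg k K = 1) (hc' : constDeg k L = 1) {a b α β u : K}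
    (hE : 4 * a ^ 3 + 27 * b ^ 2 ≠ 0) (hT : TH639.B3.IsT3 a b α β) (hβ : β ≠ 0)
    (hq : IsQuadratic L u) {P Q : ℤ[X]} (hP : IsZetaNumRel k K P) (hQ : IsZetaNumRel k L Q) {m : ℕ}
    (hm : S.VanishesTo k (u ^ 2 * a) (u ^ 3 * b) m) :
    m + rootSum 3 k P ≤ rootSum 3 k Q + contributionSum k a b u := by
  classical
  obtain ⟨hns, θ, hθ, htop⟩ := hq
  have h2 : (2 : K) ≠ 0 := two_K h6
  have hu : u ≠ 0 := by
    intro h0
    apply hns 0
    rw [h0]
    ring
  obtain ⟨q1, q2, q3⟩ := TH639.B3.quad_data h2 hθ hns htop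
  have : Fact (Nat.Prime 3) := ⟨Nat.prime_three⟩
  have hrel := TH639.B3.zeta_rel h6 q3 hu hθ hns hP hQ hc hc'
  exact TH639.B3.twist_bound h6 hT hβ hE hu (zeta_ne (l := 3) hP) (zeta_ne (l := 3) hQ) hrel hm

theorem general (k K L : Type) [Field k] [Finite k] [Field K] [Algebra k K] [FF.IsFF k K]
    [Field L] [Algebra k L] [Algebra K L] [IsScalarTower k K L] [FF.IsFF k L]
    (h6 : (6 : k) ≠ 0) (hc : constDeg k K = 1) (hc' : constDeg k L = 1) {a b u : K}
    (hE : 4 * a ^ 3 + 27 * b ^ 2 ≠ 0) (ht : HasThreeTorsion a b) (hq : IsQuadratic L u) :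
    ∃ P Q : ℤ[X], IsNumerator k K P ∧ IsNumerator k L Q ∧
      OrderBound k (u ^ 2 * a) (u ^ 3 * b) (rootSum 3 k P)
        (rootSum 3 k Q + contributionSum k a b u) := by
  classical
  obtain ⟨T, hTo⟩ := ht
  have h2 : (2 : K) ≠ 0 := two_K h6
  obtain ⟨α, β, hβ, hT⟩ := TH639.B3.isT3_of_order h2 T hTo
  obtain ⟨P, hP, hP1⟩ := exists_num_rel k K
  obtain ⟨Q, hQ, hQ1⟩ := exists_num_rel k L
  have hbd : ∀ m : ℕ, S.VanishesTo k (u ^ 2 * a) (u ^ 3 * b) m →
      m + rootSum 3 k P ≤ rootSum 3 k Q + contributionSum k a b u :=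
    fun m hm => bound_of h6 hc hc' hE hT hβ hq hP hQ hm
  have hu : u ≠ 0 := by
    intro h0
    apply hq.1 0
    rw [h0]
    ring
  exact ⟨P, Q, ⟨(S.isZetaNum_iff P).2 hP, hP1.trans (by rw [S.classNumber_eq])⟩,
    ⟨(S.isZetaNum_iff Q).2 hQ, hQ1.trans (by rw [S.classNumber_eq])⟩, hbd,
    fun h => zero_of_bound hbd h, fun h => sign_of_bound (TH639.B3.tw_disc_ne hE hu) hbd h⟩

section fam

variable {k : Type} [Field k] [Finite k]

theorem mem_primes {g P : k[X]} (hg : g ≠ 0) :
    P ∈ primes g ↔ P.Monic ∧ Irreducible P ∧ P ∣ g := TH943.LG.mem_primes hg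

theorem rootSum_one : rootSum 3 k 1 = 0 := by
  have : Fact (Nat.Prime 3) := ⟨Nat.prime_three⟩
  unfold rootSum
  rw [Polynomial.map_one]
  have h : ∀ x : ZMod 3, (1 : (ZMod 3)[X]).rootMultiplicity x = 0 := fun x =>
    Polynomial.rootMultiplicity_eq_zero (by simp)
  rw [h, h]

/-- if `q` is one modulo three, the numerator has the root one modulo three only if three divides
the class number -/
theorem rootSum_zero {Q : ℤ[X]} {h : ℕ} (hq : 3 ∣ Nat.card k - 1) (hQ : Q.eval 1 = h)
    (h3 : ¬ 3 ∣ h) : rootSum 3 k Q = 0 := by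
  have : Fact (Nat.Prime 3) := ⟨Nat.prime_three⟩
  have hpos : 1 ≤ Nat.card k := Nat.card_pos
  have hq1 : ((Nat.card k : ℕ) : ZMod 3) = 1 := by
    have h1 : Nat.card k = (Nat.card k - 1) + 1 := by omega
    rw [h1, Nat.cast_add, (ZMod.natCast_eq_zero_iff _ _).2 hq, zero_add, Nat.cast_one]
  have hr : (Q.map (Int.castRingHom (ZMod 3))).rootMultiplicity 1 = 0 := by
    apply Polynomial.rootMultiplicity_eq_zero
    rw [Polynomial.IsRoot.def]
    have h1 : (Q.map (Int.castRingHom (ZMod 3))).eval 1 = ((Q.eval 1 : ℤ) : ZMod 3) := by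
      have h2 := Polynomial.eval_map_apply (f := Int.castRingHom (ZMod 3)) (p := Q) (x := (1 : ℤ))
      rw [map_one] at h2
      rw [h2, eq_intCast]
    rw [h1, hQ, Int.cast_natCast]
    exact fun h0 => h3 ((ZMod.natCast_eq_zero_iff _ _).1 h0)
  unfold rootSum
  rw [hq1, inv_one, hr]

theorem pow_sub_one {q n : ℕ} (hq : 3 ∣ q - 1) (hpos : 1 ≤ q) : (3 : ℤ) ∣ (q : ℤ) ^ n - 1 := by
  have h1 : ((q : ℤ) - 1) ∣ (q : ℤ) ^ n - 1 := sub_one_dvd_pow_sub_one _ _
  refine dvd_trans ?_ h1
  have h2 : ((q - 1 : ℕ) : ℤ) = (q : ℤ) - 1 := by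
    rw [Nat.cast_sub hpos, Nat.cast_one]
  rw [← h2]
  exact_mod_cast hq

theorem familySum_zero {u α β : k[X]} (hβ : β ≠ 0) (hγ : 4 * α ^ 3 - 27 * β ≠ 0)
    (hq : 3 ∣ Nat.card k - 1) (h : NonSquareModFactors u (β * (4 * α ^ 3 - 27 * β))) :
    familySum u α β = 0 := by
  classical
  have h1 : (primes β).filter (fun P => ¬ P ∣ u ∧ ∃ s : k[X], P ∣ u - s ^ 2) = ∅ := by
    rw [Finset.filter_eq_empty_iff]
    rintro P hP ⟨h1, s, hs⟩
    obtain ⟨-, p2, p3⟩ := (mem_primes hβ).1 hP
    exact h P p2 (p3.mul_right _) h1 s hs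
  have h2 : (primes (4 * α ^ 3 - 27 * β)).filter
      (fun P => ¬ P ∣ u ∧ (3 : ℤ) ∣ (Nat.card k : ℤ) ^ P.natDegree - symbol u P) = ∅ := by
    rw [Finset.filter_eq_empty_iff]
    rintro P hP ⟨h1, h2⟩
    obtain ⟨-, p2, p3⟩ := (mem_primes hγ).1 hP
    have h3 : symbol u P = -1 := by
      unfold symbol
      rw [if_neg]
      rintro ⟨s, hs⟩
      exact h P p2 (p3.mul_left _) h1 s hs
    have h4 := pow_sub_one (n := P.natDegree) hq (Nat.card_pos (α := k))
    rw [h3] at h2
    omega
  unfold familySum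
  rw [h1, h2, Finset.sum_empty]
  rfl

/-- the field `k(t)(√u)` has no new constants if `u` has odd degree -/
theorem const_L {L : Type} [Field L] [Algebra k L] [Algebra (RatFunc k) L]
    [IsScalarTower k (RatFunc k) L] [FF.IsFF k L] (h6 : (6 : k) ≠ 0) {u : k[X]} (hu : u ≠ 0)
    (hodd : Odd u.natDegree) (hq : IsQuadratic L (algebraMap k[X] (RatFunc k) u)) :
    constDeg k L = 1 := by
  obtain ⟨hns, θ, hθ, htop⟩ := hq
  have h2 : (2 : RatFunc k) ≠ 0 := two_K h6
  obtain ⟨q1, q2, q3⟩ := TH639.B3.quad_data h2 hθ hns htop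
  obtain ⟨v, hv⟩ := W309.RF.exists_inf (k := k)
  obtain ⟨S, e, f, D⟩ := exists_galoisFiber (L := L) v
  have ho : Odd (v.ord (algebraMap k[X] (RatFunc k) u)) := by
    have h1 : v.ord (algebraMap k[X] (RatFunc k) u) = -(u.natDegree : ℤ) := W309.RF.inf_ord' hv hu
    rw [h1, _root_.Int.odd_iff]
    obtain ⟨j, hj⟩ := hodd
    rw [hj]
    push_cast
    omega
  obtain ⟨h3, h4⟩ := TH639.B3.fib_odd D q3 (W309.RF.A_ne hu) hθ ho
  obtain ⟨w, hw⟩ := D.nonempty
  exact TH639.B3.const_of_deg_one k w (by rw [D.deg w hw, W309.RF.inf_deg hv, h4])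

end fam

end proof

/-- Let `k` be a finite field with `q` elements of characteristic at least `5`.

(1) Let `K` be a function field over `k` with `k` as exact field of constants,
`E : y ^ 2 = x ^ 3 + a x + b` an elliptic curve over `K` with a `K`-rational point of order three, `u`
in `K` not a square and `L = K(√u)`, also with exact field of constants `k`. Let
`s = ∑ c_v 3 ^ v₃(deg v)`, where `c_v` is the contribution of the place `v` to the bound for the twist
`E^u : y ^ 2 = x ^ 3 + u ^ 2 a x + u ^ 3 b`. Let `P` and `Q` be the numerators of the zeta functions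
of `K` and `L`, and `ρ(P)`, `ρ(Q)` the sums of the multiplicities of the roots `1 / q` and `1` modulo
`3`. Then `L(T, E^u)` vanishes at `T = 1 / q` to order at most `ρ(Q) - ρ(P) + s`. If
`ρ(Q) + s ≤ ρ(P)` the order and (if it is at most the order) the rank of `E^u(K)` are `0`; if
`ρ(Q) + s ≤ ρ(P) + 1` the order is `0` or `1`, given by the sign of the functional equation.

(2) Let `K = k(t)`, `α, β` in `k[t]` coprime, `γ = 4 α ^ 3 - 27 β` and `β γ ≠ 0`. The curve
`E : y ^ 2 = x ^ 3 + (α x + β) ^ 2` has a point of order three. Let `u` in `k[t]` be squarefree of odd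
degree and `L = K(√u)`; it has exact field of constants `k`. Then the order for `E^u` is at most
`ρ(Q) + familySum`. It is `0` if `q` is `1` modulo `3`, `3` does not divide the class number of `L`
and `u` is not a square modulo the irreducible factors of `β γ` not dividing `u`.

(3) For `u = t` the order is at most `familySum`. -/
theorem result :
    (∀ (k K L : Type) [Field k] [Finite k] [Field K] [Algebra k K] [FF.IsFF k K]
      [Field L] [Algebra k L] [Algebra K L] [IsScalarTower k K L] [FF.IsFF k L],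
      (6 : k) ≠ 0 → constDeg k K = 1 → constDeg k L = 1 →
      ∀ a b u : K, 4 * a ^ 3 + 27 * b ^ 2 ≠ 0 → HasThreeTorsion a b → IsQuadratic L u →
      ∃ P Q : ℤ[X], IsNumerator k K P ∧ IsNumerator k L Q ∧
        OrderBound k (u ^ 2 * a) (u ^ 3 * b) (rootSum 3 k P)
          (rootSum 3 k Q + contributionSum k a b u)) ∧
    ∀ (k : Type) [Field k] [Finite k], (6 : k) ≠ 0 → FF.IsFF k (RatFunc k) ∧
      constDeg k (RatFunc k) = 1 ∧
      ∀ α β : k[X], IsCoprime α β → β ≠ 0 → 4 * α ^ 3 - 27 * β ≠ 0 →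
      (4 * coeffA α β ^ 3 + 27 * coeffB α β ^ 2 ≠ 0 ∧
        HasThreeTorsion (coeffA α β) (coeffB α β)) ∧
      (∀ u : k[X], Squarefree u → Odd u.natDegree →
        ∀ (L : Type) [Field L] [Algebra k L] [Algebra (RatFunc k) L]
          [IsScalarTower k (RatFunc k) L] [FF.IsFF k L],
          IsQuadratic L (algebraMap k[X] (RatFunc k) u) →
          constDeg k L = 1 ∧ TwistFamily k L u α β) ∧
      TwistByT α β := by
  classical
  refine ⟨?_, ?_⟩
  · intro k K L _ _ _ _ _ _ _ _ _ _ h6 hc hc' a b u hE ht hq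
    exact general k K L h6 hc hc' hE ht hq
  · intro k _ _ h6
    obtain ⟨s1, s2, s3⟩ := W309.RK.sb k
    refine ⟨s1, s2, ?_⟩
    intro α β hcop hβ hγ
    have h3R : (3 : RatFunc k) ≠ 0 := W309.RK.three_K (k := k) h6
    have h2R : (2 : RatFunc k) ≠ 0 := two_K h6
    have hE : 4 * coeffA α β ^ 3 + 27 * coeffB α β ^ 2 ≠ 0 := TH639.B3.disc_ne h3R hβ hγ
    have hT : TH639.B3.IsT3 (coeffA α β) (coeffB α β) (W309.RF.A α) (W309.RF.A β) :=
      TH639.B3.isT3_fam h3R α β
    -- the bound with both numerators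
    have key : ∀ u : k[X], Squarefree u → Odd u.natDegree →
        ∀ (L : Type) [Field L] [Algebra k L] [Algebra (RatFunc k) L]
          [IsScalarTower k (RatFunc k) L] [FF.IsFF k L],
          IsQuadratic L (algebraMap k[X] (RatFunc k) u) → ∀ Q : ℤ[X], IsZetaNumRel k L Q →
          ∀ m : ℕ, S.VanishesTo k (twistA u α β) (twistB u α β) m →
            m + 0 ≤ rootSum 3 k Q + familySum u α β := by
      intro u hsq hodd L _ _ _ _ _ hq Q hQ m hm
      have hu : u ≠ 0 := hsq.ne_zero
      have hc' := const_L h6 hu hodd hq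
      have hP1 : IsZetaNumRel k (RatFunc k) 1 :=
        (S.isZetaNum_iff 1).1 (W309.RF.isZetaNum_rat (k := k))
      have h1 := bound_of h6 s2 hc' hE hT (W309.RF.A_ne hβ) hq hP1 hQ hm
      have h2 : contributionSum k (coeffA α β) (coeffB α β) (algebraMap k[X] (RatFunc k) u) ≤
          familySum u α β := TH639.B3.twSum_fam h6 hβ hγ hcop hsq hodd
      rw [rootSum_one] at h1
      omega
    have hne : ∀ u : k[X], u ≠ 0 →
        4 * (twistA u α β) ^ 3 + 27 * (twistB u α β) ^ 2 ≠ 0 := fun u hu =>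
      TH639.B3.tw_disc_ne hE (W309.RF.A_ne hu)
    refine ⟨⟨hE, hasThree_of h2R h3R (W309.RF.A_ne hβ) hT⟩, ?_, ?_⟩
    · intro u hsq hodd L _ _ _ _ _ hq
      refine ⟨const_L h6 hsq.ne_zero hodd hq, ?_⟩
      obtain ⟨Q, hQ, hQ1⟩ := exists_num_rel k L
      have hbd := key u hsq hodd L hq Q hQ
      have hQ1' : Q.eval 1 = S.classNumber k L := hQ1.trans (by rw [S.classNumber_eq])
      refine ⟨Q, ⟨(S.isZetaNum_iff Q).2 hQ, hQ1'⟩, ⟨hbd, fun h => zero_of_bound hbd h,
        fun h => sign_of_bound (hne u hsq.ne_zero) hbd h⟩, ?_⟩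
      intro hq1 hcl hnsq
      apply zero_of_bound hbd
      rw [rootSum_zero hq1 hQ1' hcl, familySum_zero hβ hγ hq1 hnsq]
    · have hXsq : Squarefree (X : k[X]) := irreducible_X.squarefree
      have hXodd : Odd (X : k[X]).natDegree := by rw [natDegree_X]; exact odd_one
      have hqX : IsQuadratic (TH639.B3.Sq k) (algebraMap k[X] (RatFunc k) X) :=
        ⟨TH639.B3.not_sq k hXodd, TH639.B3.sqRoot k, by
          rw [RatFunc.algebraMap_X]; exact TH639.B3.sqRoot_sq k, TH639.B3.sq_top k⟩
      have hbd' := key X hXsq hXodd (TH639.B3.Sq k) hqX 1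
        ((S.isZetaNum_iff 1).1 (TH639.B3.sq_num k))
      have hbd : ∀ m : ℕ, S.VanishesTo k (twistA X α β) (twistB X α β) m →
          m + 0 ≤ familySum X α β := by
        intro m hm
        have h1 := hbd' m hm
        rw [rootSum_one, zero_add] at h1
        exact h1
      refine ⟨⟨hbd, fun h => zero_of_bound hbd h, fun h => sign_of_bound (hne X X_ne_zero) hbd h⟩,
        ?_⟩
      intro hq1 hnsq
      apply zero_of_bound hbd
      rw [familySum_zero hβ hγ hq1 hnsq]

end Pool.Agent.Results.MP_48b749_nt.ThreeIsogenyTwists
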