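import Pool.Agent.TH958.T7.Fin

/-!
# Rank equals order of vanishing, of unbounded size, for elliptic curves with a point of order three
# over function fields of curves of every genus

The elliptic curves `y ^ 2 = x ^ 3 + (3 x + 4 (1 - h ^ d)) ^ 2` for all divisors `d ≥ 2` of
`p ^ ν + 1`.
-/

set_option autoImplicit false
set_option linter.all false
set_option maxHeartbeats 4000000

open Polynomial Pool.Agent.W343.BSD Pool.Agent.W309.RK

namespace Pool.Agent.Results.MP_48b749_nt.ThreeTorsionAllGenera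

/-- `x` has exactly one zero; the order of this zero and the degree of the place are prime to three. -/
def OneZero (k : Type) {K : Type} [Field k] [Field K] [Algebra k K] (x : K) : Prop :=
  ∃ v : FF.Place k K, 0 < v.ord x ∧ ¬ (3 : ℤ) ∣ v.ord x ∧ ¬ 3 ∣ S.deg v ∧
    ∀ w : FF.Place k K, 0 < w.ord x → w = v

/-- The conditions on the function `h`: `h` and the functions `h - ζ` with `ζ ^ d = 1` have exactly one
zero each, of order prime to three and at a place of degree prime to three; exactly one of the poles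
of `h` has order prime to three, and the degree of this place is prime to three. -/
structure Conditions (k : Type) {K : Type} [Field k] [Field K] [Algebra k K] (d : ℕ) (h : K) :
    Prop where
  zero : OneZero k h
  shift : ∀ ζ : k, ζ ^ d = 1 → OneZero k (h - algebraMap k K ζ)
  pole : ∃ v : FF.Place k K, v.ord h < 0 ∧ ¬ (3 : ℤ) ∣ v.ord h ∧ ¬ 3 ∣ S.deg v ∧
    ∀ w : FF.Place k K, w.ord h < 0 → ¬ (3 : ℤ) ∣ w.ord h → w = v

/-- The first coefficient of `E_h`. -/
def coeffA {K : Type} [Field K] (d : ℕ) (h : K) : K := -(24 * h ^ d + 3)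

/-- The second coefficient of `E_h`. -/
def coeffB {K : Type} [Field K] (d : ℕ) (h : K) : K := 16 * (h ^ d) ^ 2 + 40 * h ^ d - 2

/-- The curve `E_h : y ^ 2 = x ^ 3 + (3 x + 4 (1 - h ^ d)) ^ 2`, in short form
`y ^ 2 = x ^ 3 + a x + b` (with `x` replaced by `x - 3`). -/
def curve {K : Type} [Field K] (d : ℕ) (h : K) : WeierstrassCurve K :=
  ⟨0, 0, 0, coeffA d h, coeffB d h⟩

open Classical in
/-- `E_h` is an elliptic curve whose `j`-invariant `6912 a ^ 3 / (4 a ^ 3 + 27 b ^ 2)` is not in `k`, with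
a `K`-rational point of order three and `ρ` linearly independent points over `K`; its `L`-function
vanishes at `T = 1 / |k|` to order at most `ρ`: if it is `(1 - |k| T) ^ M G(T)` with `G` in `ℤ[T]`,
then `M ≤ ρ`. If it is a polynomial with order of vanishing `r` and the rank is at most `r`, then
the rank and `r` are equal to `ρ`. -/
def RankAndOrder (k : Type) {K : Type} [Field k] [Finite k] [Field K] [Algebra k K] (ρ d : ℕ)
    (h : K) : Prop :=
  4 * coeffA d h ^ 3 + 27 * coeffB d h ^ 2 ≠ 0 ∧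
  (∀ c : k, 6912 * coeffA d h ^ 3 / (4 * coeffA d h ^ 3 + 27 * coeffB d h ^ 2) ≠
    algebraMap k K c) ∧
  (∃ P : (curve d h).toAffine.Point, addOrderOf P = 3) ∧
  (∃ P : Fin ρ → (curve d h).toAffine.Point, LinearIndependent ℤ P) ∧
  (∀ M : ℕ, S.VanishesTo k (coeffA d h) (coeffB d h) M → M ≤ ρ) ∧
  ∀ r : ℕ, Pool.Agent.W313.Gr.HasOrder k (coeffA d h) (coeffB d h) r →
    Module.rank ℤ (curve d h).toAffine.Point ≤ r →
      r = ρ ∧ Module.rank ℤ (curve d h).toAffine.Point = ρ

/-- (1) Let `k` be a finite field with `p ^ (2 ν n)` elements, `p ≥ 5` a prime, `p ^ ν` congruent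
to `1` modulo `3`, `d ≥ 2` a divisor of `p ^ ν + 1`, and let `K` be the function field of a curve over
`k` with constant field `k` and class number prime to `3`. Let `h` in `K` satisfy the conditions. Then
the elliptic curve `y ^ 2 = x ^ 3 + (3 x + 4 (1 - h ^ d)) ^ 2` has a point of order three, at least
`d - 1` independent points over `K`, and its `L`-function vanishes at `T = 1 / |k|` to order at most
`d - 1`; if the rank is at most the order, both are `d - 1`.

(2) There are such `k`, for every `p ≥ 5` and `ν ≥ 1`, such that for `K = k(t)` the conditions on `K`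
hold and those on `h` hold, for all divisors `d` of `p ^ ν + 1`, for polynomials `h` of arbitrarily
large degree. -/
theorem result :
    (∀ (p ν n d : ℕ), p.Prime → 5 ≤ p → 1 ≤ ν → p ^ ν % 3 = 1 → 2 ≤ d → d ∣ p ^ ν + 1 →
      ∀ (k K : Type) [Field k] [Finite k] [Field K] [Algebra k K],
      Nat.card k = p ^ (2 * ν * n) → IsCurveField k K →
      ¬ 3 ∣ S.classNumber k K → ∀ h : K, Conditions k d h → RankAndOrder k (d - 1) d h) ∧
    ∀ (p ν : ℕ), p.Prime → 5 ≤ p → 1 ≤ ν → ∃ (k : Type) (_ : Field k) (_ : Finite k) (n : ℕ),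
      Nat.card k = p ^ (2 * ν * n) ∧ IsCurveField k (RatFunc k) ∧
      ¬ 3 ∣ S.classNumber k (RatFunc k) ∧ ∀ N : ℕ, ∃ h : k[X], N ≤ h.natDegree ∧
        ∀ d : ℕ, d ∣ p ^ ν + 1 → Conditions k d (algebraMap k[X] (RatFunc k) h) := by
  refine ⟨?_, ?_⟩
  · intro p ν n d hp hp5 hν hQ hd2 hd k K _ _ _ _ hcard hK hcl h hA
    haveI : FF.IsFF k K := ⟨hK.essFiniteType, hK.trdeg_eq_one⟩
    obtain ⟨⟨h1, h2⟩, h3, h4, h5, h6⟩ := Pool.Agent.TH958.T7.main hp hp5 hQ hν hd2 hd hcard
      hK.algClosed hcl (h := h) ⟨hA.zero, hA.shift, hA.pole⟩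
    exact ⟨h1, fun c hc => h2 c ((div_eq_iff h1).1 hc), h3, h4, h5, h6⟩
  · intro p ν hp hp5 hν
    obtain ⟨k, i1, i2, n, h1, h2, h3, h4⟩ := Pool.Agent.TH958.T7.exist hp hp5 hν
    refine ⟨k, i1, i2, n, h1, h2, h3, fun N => ?_⟩
    obtain ⟨h, h5, h6⟩ := h4 N
    exact ⟨h, h5, fun d hd => ⟨(h6 d hd).zero, (h6 d hd).shift, (h6 d hd).pole⟩⟩

end Pool.Agent.Results.MP_48b749_nt.ThreeTorsionAllGenera
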